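import Pool.Agent.W586.SK.Stm

/-!
# Integration by parts (part SK-IBP)
-/

set_option autoImplicit false

namespace Pool.Agent.W876.SK

open MeasureTheory Set
open Pool.Agent.W586.SK

theorem vec_sum {n : ℕ} (v : E n) : v = ∑ k, (v k) • (EuclideanSpace.single k (1 : ℝ) : E n) := by
  ext j
  simp [Finset.sum_apply, Pi.single_apply]

theorem lin_sum {n : ℕ} (L : E n →L[ℝ] ℝ) (v : E n) :
    L v = ∑ k, (v k) * L (EuclideanSpace.single k (1 : ℝ)) := by
  conv_lhs => rw [vec_sum v]
  rw [map_sum]
  refine Finset.sum_congr rfl ?_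
  intro k _
  rw [map_smul, smul_eq_mul]

theorem ibp : S_IBP := by
  intro n g F w hg hF hFc hw
  have hwk : ∀ k : Fin n, ContDiff ℝ 1 (fun x => (w x) k) := by
    intro k
    exact (contDiff_euclidean.mp hw) k
  have hu : ∀ k : Fin n, ContDiff ℝ 1 (fun x => F x * (w x) k) := fun k => hF.mul (hwk k)
  have huc : ∀ k : Fin n, HasCompactSupport (fun x => F x * (w x) k) := fun k => hFc.mul_right
  have hwd : ∀ x (v : E n) (k : Fin n), fderiv ℝ (fun x => (w x) k) x v = (fderiv ℝ w x v) k := by
    intro x v k
    have h1 : HasFDerivAt w (fderiv ℝ w x) x :=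
      (hw.differentiable (by norm_num) x).hasFDerivAt
    have h2 := (EuclideanSpace.proj (𝕜 := ℝ) k).hasFDerivAt (x := w x)
    have h3 := h2.comp x h1
    have h4 : (fun x => (w x) k) = (EuclideanSpace.proj (𝕜 := ℝ) k) ∘ w := rfl
    rw [h4, h3.fderiv]
    rfl
  have hud : ∀ x (v : E n) (k : Fin n), fderiv ℝ (fun x => F x * (w x) k) x v =
      F x * (fderiv ℝ w x v) k + (w x) k * fderiv ℝ F x v := by
    intro x v k
    have h1 := fderiv_fun_mul (hF.differentiable (by norm_num) x)
      ((hwk k).differentiable (by norm_num) x)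
    rw [h1]
    simp only [_root_.add_apply, _root_.smul_apply, smul_eq_mul, hwd]
  have i1 : ∀ k : Fin n, Integrable (fun x =>
      fderiv ℝ (fun x => F x * (w x) k) x (EuclideanSpace.single k (1 : ℝ)) * g x) := by
    intro k
    apply Continuous.integrable_of_hasCompactSupport
    · exact (((hu k).continuous_fderiv (by norm_num)).clm_apply continuous_const).mul hg.continuous
    · exact ((huc k).fderiv_apply (𝕜 := ℝ) _).mul_right
  have i2 : ∀ k : Fin n, Integrable (fun x =>
      (F x * (w x) k) * fderiv ℝ g x (EuclideanSpace.single k (1 : ℝ))) := by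
    intro k
    apply Continuous.integrable_of_hasCompactSupport
    · exact (hu k).continuous.mul ((hg.continuous_fderiv (by norm_num)).clm_apply continuous_const)
    · exact (huc k).mul_right
  have i3 : ∀ k : Fin n, Integrable (fun x => (F x * (w x) k) * g x) := by
    intro k
    apply Continuous.integrable_of_hasCompactSupport
    · exact (hu k).continuous.mul hg.continuous
    · exact (huc k).mul_right
  have e1 : ∀ k : Fin n,
      ∫ x, fderiv ℝ (fun x => F x * (w x) k) x (EuclideanSpace.single k (1 : ℝ)) * g x =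
      - ∫ x, (F x * (w x) k) * fderiv ℝ g x (EuclideanSpace.single k (1 : ℝ)) := by
    intro k
    have := integral_mul_fderiv_eq_neg_fderiv_mul_of_integrable (μ := (volume : Measure (E n)))
      (v := EuclideanSpace.single k (1 : ℝ)) (i1 k) (i2 k) (i3 k)
      (fun x _ => (hu k).differentiable (by norm_num) x)
      (fun x _ => hg.differentiable (by norm_num) x)
    linarith
  have e2 : ∀ x, (fderiv ℝ F x (w x) + F x * dv w x) * g x =
      ∑ k, fderiv ℝ (fun x => F x * (w x) k) x (EuclideanSpace.single k (1 : ℝ)) * g x := by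
    intro x
    rw [← Finset.sum_mul]
    congr 1
    simp only [hud, Finset.sum_add_distrib]
    rw [lin_sum (fderiv ℝ F x) (w x), dv, Finset.mul_sum, add_comm]
  have e3 : ∀ x, F x * fderiv ℝ g x (w x) =
      ∑ k, (F x * (w x) k) * fderiv ℝ g x (EuclideanSpace.single k (1 : ℝ)) := by
    intro x
    rw [lin_sum (fderiv ℝ g x) (w x), Finset.mul_sum]
    refine Finset.sum_congr rfl ?_
    intro k _
    ring
  simp_rw [e2, e3]
  rw [integral_finsetSum _ (fun k _ => i1 k), integral_finsetSum _ (fun k _ => i2 k),
    ← Finset.sum_neg_distrib]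
  exact Finset.sum_congr rfl (fun k _ => e1 k)

end Pool.Agent.W876.SK
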